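import Pool.Agent.Q274.BKL.Stm

/-!
# Project BKL (helper274), job DIST: the distribution relation of the numbers of Eisenstein and Kronecker
-/

set_option autoImplicit false

open Filter
open scoped Topology PeriodPair

namespace Pool.Agent.Q257.BKL

open H667R3 Pool.Agent.TH936.CM Pool.Agent.TH936.CW
open Pool.Agent.W192.HK (sp nm)

variable {L : PeriodPair} {R : Subring ℂ} {Ω p q : ℂ}

/-! ### bounded degree -/

lemma Bd_scale {N : ℕ} {F : ℂ → ℂ} (hF : Bd N F) (a : ℂ) : Bd N (fun v => F (a * v)) := by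
  obtain ⟨Q, hQ, hF⟩ := hF
  refine ⟨Q.comp (Polynomial.C a * Polynomial.X), ?_, fun v => ?_⟩
  · refine (Polynomial.natDegree_comp_le).trans ?_
    have h1 : (Polynomial.C a * Polynomial.X).natDegree ≤ 1 :=
      (Polynomial.natDegree_C_mul_le _ _).trans Polynomial.natDegree_X_le
    calc Q.natDegree * (Polynomial.C a * Polynomial.X).natDegree ≤ N * 1 := Nat.mul_le_mul hQ h1
      _ = N := mul_one N
  · beta_reduce
    rw [Polynomial.eval_comp, Polynomial.eval_mul, Polynomial.eval_C, Polynomial.eval_X, hF]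

lemma Bd_sum {ι : Type*} {N : ℕ} (s : Finset ι) (F : ι → ℂ → ℂ) (h : ∀ i ∈ s, Bd N (F i)) :
    Bd N (fun v => ∑ i ∈ s, F i v) := by
  classical
  induction s using Finset.induction_on with
  | empty =>
    refine ⟨0, by simp, fun v => by simp⟩
  | insert a s ha ih =>
    have h1 := (h a (Finset.mem_insert_self _ _)).add (ih fun i hi => h i (Finset.mem_insert_of_mem hi))
    have h2 : (fun v => ∑ i ∈ insert a s, F i v) = fun v => F a v + ∑ i ∈ s, F i v := by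
      funext v
      rw [Finset.sum_insert ha]
    rw [h2]
    exact h1

/-! ### the polar parts -/

lemma polar (hpq : ∀ l ∈ L.lattice, eta L l = p * l + q * (starRingEnd ℂ) l) (n : ℕ) (v z₁ : ℂ) :
    ∃ A : ℂ → ℂ, AnalyticAt ℂ A z₁ ∧ (∀ᶠ z in 𝓝[≠] z₁, z₁ ∈ L.lattice →
      evz L p q v z (Pp L p n) = q ^ n * ((v - (starRingEnd ℂ) z₁) ^ n / (z - z₁) ^ (n + 1)) + A z) ∧
      (z₁ ∉ L.lattice → ∀ z, evz L p q v z (Pp L p n) = A z) := by
  by_cases hz : z₁ ∈ L.lattice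
  · obtain ⟨Ψ, hΨ, hΨe⟩ := Pp_near L p q n (v - (starRingEnd ℂ) z₁)
    have hlim := tend_sub z₁ (-z₁)
    rw [add_neg_cancel] at hlim
    refine ⟨fun z => Ψ (z + -z₁), ?_, ?_, fun h => absurd hz h⟩
    · have h3 : AnalyticAt ℂ (fun z : ℂ => z + -z₁) z₁ := by fun_prop
      refine AnalyticAt.fun_comp (f := fun z : ℂ => z + -z₁) (g := Ψ) ?_ h3
      rw [add_neg_cancel]
      exact hΨ
    · filter_upwards [hlim.eventually hΨe, hlim.eventually (near L)] with z h1 h2 _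
      have h3 := evz_add L p q hpq h2 hz (v - (starRingEnd ℂ) z₁) (Pp L p n)
      rw [sub_add_cancel, neg_add_cancel_right] at h3
      rw [h3, h1, ← sub_eq_add_neg]
  · refine ⟨fun z => evz L p q v z (Pp L p n), evz_an L p q v hz (Pp L p n),
      Eventually.of_forall fun z h => absurd h hz, fun _ z => rfl⟩

/-! ### the translates -/

/-- the points of order `c` -/
noncomputable def ta (Ω : ℂ) (c : R) (t : R ⧸ sp c) : ℂ := Ω * (t.out : R) / (c : ℂ)

lemma c_ta (Ω : ℂ) {c : R} (hc : c ≠ 0) (t : R ⧸ sp c) : (c : ℂ) * ta Ω c t = Ω * (t.out : R) := by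
  have h : (c : ℂ) ≠ 0 := fun h => hc (Subtype.ext h)
  unfold ta
  field_simp

/-- exactly one translate of a point of order `c` is a period -/
lemma ta_iff (hL : IsLat L R Ω) {c : R} (hc : c ≠ 0) {z : ℂ} {r : R} (hz : (c : ℂ) * z = Ω * r) (t : R ⧸ sp c) :
    z + ta Ω c t ∈ L.lattice ↔ t = Ideal.Quotient.mk (sp c) (-r) := by
  have hcC : (c : ℂ) ≠ 0 := fun h => hc (Subtype.ext h)
  have hΩ := hL.ne
  have e1 : (c : ℂ) * (z + ta Ω c t) = Ω * ((r + t.out : R) : ℂ) := by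
    rw [mul_add, hz, c_ta Ω hc]
    push_cast
    ring
  have e2 : t = Ideal.Quotient.mk (sp c) (-r) ↔ c ∣ r + t.out := by
    nth_rewrite 1 [← Ideal.Quotient.mk_out t]
    rw [Ideal.Quotient.eq, Ideal.mem_span_singleton, sub_neg_eq_add, add_comm]
  rw [e2, hL.mem]
  constructor
  · rintro ⟨r', h⟩
    refine ⟨r', ?_⟩
    apply Subtype.ext
    rw [h] at e1
    have e3 : Ω * ((r + t.out : R) : ℂ) = Ω * ((c * r' : R) : ℂ) := by
      rw [← e1]
      push_cast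
      ring
    exact mul_left_cancel₀ hΩ e3
  · rintro ⟨r', h⟩
    refine ⟨r', ?_⟩
    rw [h] at e1
    apply mul_left_cancel₀ hcC
    rw [e1]
    push_cast
    ring

lemma ta_mem (hL : IsLat L R Ω) {c : R} (hc : c ≠ 0) {z : ℂ} {t : R ⧸ sp c} (h : z + ta Ω c t ∈ L.lattice) :
    (c : ℂ) * z ∈ L.lattice := by
  have h1 := hL.mul c _ h
  rw [mul_add, c_ta Ω hc] at h1
  have h2 := sub_mem h1 (hL.mem_mul (t.out : R))
  rwa [add_sub_cancel_right] at h2

open Classical in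
lemma ta_sum (hL : IsLat L R Ω) {c : R} (hc : c ≠ 0) [Fintype (R ⧸ sp c)] (z X : ℂ) :
    ∑ t : R ⧸ sp c, (if z + ta Ω c t ∈ L.lattice then X else 0) = if (c : ℂ) * z ∈ L.lattice then X else 0 := by
  by_cases h : (c : ℂ) * z ∈ L.lattice
  · obtain ⟨r, hr⟩ := (hL.mem _).1 h
    rw [if_pos h]
    have h1 : ∀ t : R ⧸ sp c, (if z + ta Ω c t ∈ L.lattice then X else 0) =
        if t = Ideal.Quotient.mk (sp c) (-r) then X else 0 := by
      intro t
      by_cases h2 : z + ta Ω c t ∈ L.lattice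
      · rw [if_pos h2, if_pos ((ta_iff hL hc hr t).1 h2)]
      · rw [if_neg h2, if_neg (fun h3 => h2 ((ta_iff hL hc hr t).2 h3))]
    rw [Finset.sum_congr rfl fun t _ => h1 t, Finset.sum_ite_eq' Finset.univ, if_pos (Finset.mem_univ _)]
  · rw [if_neg h]
    apply Finset.sum_eq_zero
    intro t _
    rw [if_neg (fun h2 => h (ta_mem hL hc h2))]

/-! ### the difference -/

/-- the difference -/
noncomputable def dG (L : PeriodPair) (p q Ω : ℂ) (n : ℕ) (c : R) [Fintype (R ⧸ sp c)] (v z : ℂ) : ℂ :=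
  ∑ t : R ⧸ sp c, evz L p q (v + (starRingEnd ℂ) (ta Ω c t)) (z + ta Ω c t) (Pp L p n) -
    (c : ℂ) ^ (n + 1) * ((starRingEnd ℂ) (c : ℂ) ^ n)⁻¹ *
      evz L p q ((starRingEnd ℂ) (c : ℂ) * v) (c * z) (Pp L p n)

lemma tend_mul {a : ℂ} (ha : a ≠ 0) (z₀ : ℂ) : Tendsto (fun z : ℂ => a * z) (𝓝[≠] z₀) (𝓝[≠] (a * z₀)) := by
  rw [tendsto_nhdsWithin_iff]
  constructor
  · have h : Continuous (fun z : ℂ => a * z) := by fun_prop
    exact (h.tendsto z₀).mono_left nhdsWithin_le_nhds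
  · filter_upwards [self_mem_nhdsWithin] with z hz
    intro h
    exact hz (mul_left_cancel₀ ha h)

lemma dG_loc (hL : IsLat L R Ω) (hpq : ∀ l ∈ L.lattice, eta L l = p * l + q * (starRingEnd ℂ) l) (n : ℕ)
    {c : R} (hc : c ≠ 0) [Fintype (R ⧸ sp c)] (v z₀ : ℂ) :
    ∃ A : ℂ → ℂ, AnalyticAt ℂ A z₀ ∧ (∀ᶠ z in 𝓝[≠] z₀, dG L p q Ω n c v z = A z) ∧
      ((c : ℂ) * z₀ ∉ L.lattice → dG L p q Ω n c v z₀ = A z₀) := by
  classical
  have hcC : (c : ℂ) ≠ 0 := fun h => hc (Subtype.ext h)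
  have hcc : (starRingEnd ℂ) (c : ℂ) ≠ 0 := (map_ne_zero _).2 hcC
  obtain ⟨κ, hκ⟩ : ∃ κ, κ = (c : ℂ) ^ (n + 1) * ((starRingEnd ℂ) (c : ℂ) ^ n)⁻¹ := ⟨_, rfl⟩
  choose A hA hA1 hA2 using fun t : R ⧸ sp c => polar hpq n (v + (starRingEnd ℂ) (ta Ω c t)) (z₀ + ta Ω c t)
  obtain ⟨B, hB, hB1, hB2⟩ := polar hpq n ((starRingEnd ℂ) (c : ℂ) * v) ((c : ℂ) * z₀)
  refine ⟨fun z => ∑ t : R ⧸ sp c, A t (z + ta Ω c t) - κ * B (c * z), ?_, ?_, ?_⟩
  · have h1 : AnalyticAt ℂ (fun z => ∑ t : R ⧸ sp c, A t (z + ta Ω c t)) z₀ := by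
      refine Finset.analyticAt_fun_sum _ fun t _ => ?_
      exact AnalyticAt.fun_comp (f := fun z : ℂ => z + ta Ω c t) (g := A t) (hA t) (by fun_prop)
    have h2 : AnalyticAt ℂ (fun z => B (c * z)) z₀ :=
      AnalyticAt.fun_comp (f := fun z : ℂ => (c : ℂ) * z) (g := B) hB (by fun_prop)
    exact h1.sub (analyticAt_const.mul h2)
  · have l1 : ∀ᶠ z in 𝓝[≠] z₀, ∀ t : R ⧸ sp c, z₀ + ta Ω c t ∈ L.lattice →
        evz L p q (v + (starRingEnd ℂ) (ta Ω c t)) (z + ta Ω c t) (Pp L p n) =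
          q ^ n * ((v + (starRingEnd ℂ) (ta Ω c t) - (starRingEnd ℂ) (z₀ + ta Ω c t)) ^ n /
            (z + ta Ω c t - (z₀ + ta Ω c t)) ^ (n + 1)) + A t (z + ta Ω c t) := by
      rw [eventually_all]
      intro t
      exact (tend_sub z₀ (ta Ω c t)).eventually (hA1 t)
    have l2 := (tend_mul hcC z₀).eventually hB1
    filter_upwards [l1, l2, self_mem_nhdsWithin] with z h1 h2 h3
    have h3' : z - z₀ ≠ 0 := sub_ne_zero.2 h3
    obtain ⟨X, hX⟩ : ∃ X, X = q ^ n * ((v - (starRingEnd ℂ) z₀) ^ n / (z - z₀) ^ (n + 1)) := ⟨_, rfl⟩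
    have e1 : ∀ t : R ⧸ sp c, evz L p q (v + (starRingEnd ℂ) (ta Ω c t)) (z + ta Ω c t) (Pp L p n) =
        (if z₀ + ta Ω c t ∈ L.lattice then X else 0) + A t (z + ta Ω c t) := by
      intro t
      by_cases h : z₀ + ta Ω c t ∈ L.lattice
      · rw [if_pos h, h1 t h, hX, map_add]
        congr 2
        congr 2
        · ring
        · ring
      · rw [if_neg h, hA2 t h, zero_add]
    have e2 : κ * evz L p q ((starRingEnd ℂ) (c : ℂ) * v) (c * z) (Pp L p n) =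
        (if (c : ℂ) * z₀ ∈ L.lattice then X else 0) + κ * B (c * z) := by
      by_cases h : (c : ℂ) * z₀ ∈ L.lattice
      · rw [if_pos h, h2 h, hX, hκ, map_mul]
        have f1 : (starRingEnd ℂ) (c : ℂ) * v - (starRingEnd ℂ) (c : ℂ) * (starRingEnd ℂ) z₀ =
            (starRingEnd ℂ) (c : ℂ) * (v - (starRingEnd ℂ) z₀) := by ring
        have f2 : (c : ℂ) * z - c * z₀ = c * (z - z₀) := by ring
        rw [f1, f2, mul_pow, mul_pow]
        field_simp
      · rw [if_neg h, hB2 h, zero_add]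
    unfold dG
    rw [← hκ, e2, Finset.sum_congr rfl fun t _ => e1 t, Finset.sum_add_distrib, ta_sum hL hc]
    ring
  · intro h
    unfold dG
    rw [← hκ, hB2 h, Finset.sum_congr rfl fun t _ => hA2 t (fun h2 => h (ta_mem hL hc h2)) _]

lemma dG_add (hL : IsLat L R Ω) (hpq : ∀ l ∈ L.lattice, eta L l = p * l + q * (starRingEnd ℂ) l) (n : ℕ)
    {c : R} (hc : c ≠ 0) [Fintype (R ⧸ sp c)] (v : ℂ) {z : ℂ} (hz : (c : ℂ) * z ∉ L.lattice) {l : ℂ}
    (hl : l ∈ L.lattice) : dG L p q Ω n c (v + (starRingEnd ℂ) l) (z + l) = dG L p q Ω n c v z := by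
  unfold dG
  congr 1
  · apply Finset.sum_congr rfl
    intro t _
    have e1 : v + (starRingEnd ℂ) l + (starRingEnd ℂ) (ta Ω c t) =
        v + (starRingEnd ℂ) (ta Ω c t) + (starRingEnd ℂ) l := by ring
    have e2 : z + l + ta Ω c t = z + ta Ω c t + l := by ring
    rw [e1, e2, evz_add L p q hpq (fun h => hz (ta_mem hL hc h)) hl]
  · congr 1
    have e1 : (starRingEnd ℂ) (c : ℂ) * (v + (starRingEnd ℂ) l) =
        (starRingEnd ℂ) (c : ℂ) * v + (starRingEnd ℂ) ((c : ℂ) * l) := by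
      rw [map_mul]
      ring
    have e2 : (c : ℂ) * (z + l) = c * z + c * l := by ring
    rw [e1, e2, evz_add L p q hpq hz (hL.mul c l hl)]

lemma dG_bd (L : PeriodPair) (p q Ω : ℂ) (n : ℕ) (c : R) [Fintype (R ⧸ sp c)] :
    ∃ N, ∀ z, Bd N (fun v => dG L p q Ω n c v z) := by
  obtain ⟨N, hN⟩ := Bd.evz L p q (Pp L p n)
  refine ⟨N, fun z => ?_⟩
  have h1 := Bd_sum (Finset.univ : Finset (R ⧸ sp c)) (fun t v =>
    evz L p q (v + (starRingEnd ℂ) (ta Ω c t)) (z + ta Ω c t) (Pp L p n)) (N := N)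
    (fun t _ => (hN (z + ta Ω c t)).shift ((starRingEnd ℂ) (ta Ω c t)))
  have h2 := (Bd_scale (hN ((c : ℂ) * z)) ((starRingEnd ℂ) (c : ℂ))).cmul
    ((c : ℂ) ^ (n + 1) * ((starRingEnd ℂ) (c : ℂ) ^ n)⁻¹)
  exact h1.sub h2

lemma ev_mul (L : PeriodPair) {a : ℂ} (ha : a ≠ 0) (z : ℂ) : ∀ᶠ w in 𝓝[≠] z, a * w ∉ L.lattice := by
  have h1 : ∀ b : ℂ, ∀ᶠ w in 𝓝[≠] b, w ∉ L.lattice := fun b => by
    filter_upwards [good_ev L b 0] with w hw
    exact hw.1
  exact (tend_mul ha z).eventually (h1 (a * z))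

/-- the difference is constant -/
theorem dG_const (hL : IsLat L R Ω) (hpq : ∀ l ∈ L.lattice, eta L l = p * l + q * (starRingEnd ℂ) l) (n : ℕ)
    {c : R} (hc : c ≠ 0) [Fintype (R ⧸ sp c)] :
    ∃ C : ℂ, ∀ v z, (c : ℂ) * z ∉ L.lattice → dG L p q Ω n c v z = C := by
  have hcC : (c : ℂ) ≠ 0 := fun h => hc (Subtype.ext h)
  obtain ⟨N, hN⟩ := dG_bd L p q Ω n c
  obtain ⟨E, hE⟩ : ∃ E : ℂ → ℂ → ℂ, E = fun v => ext (fun z => dG L p q Ω n c v z) := ⟨_, rfl⟩
  have hEd : ∀ v, Differentiable ℂ (E v) := fun v => by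
    rw [hE]
    exact ext_diff fun z₀ => by
      obtain ⟨A, a, b, -⟩ := dG_loc hL hpq n hc v z₀
      exact ⟨A, a, b⟩
  have hEl : ∀ v z, Tendsto (fun w => dG L p q Ω n c v w) (𝓝[≠] z) (𝓝 (E v z)) := by
    intro v z
    rw [hE]
    obtain ⟨A, a, b, -⟩ := dG_loc hL hpq n hc v z
    exact (ext_eq a b).1
  have hEv : ∀ v z, (c : ℂ) * z ∉ L.lattice → dG L p q Ω n c v z = E v z := by
    intro v z h0
    obtain ⟨A, a, b, e⟩ := dG_loc hL hpq n hc v z
    rw [e h0, hE]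
    exact (ext_eq a b).2.symm
  have hEb : ∀ z, Bd N (fun v => E v z) := fun z =>
    Bd.lim (l := 𝓝[≠] z) (Eventually.of_forall fun w => hN w) (fun v => hEl v z)
  have hEi : ∀ l ∈ L.lattice, ∀ z v, E (v + (starRingEnd ℂ) l) (z + l) = E v z := by
    intro l hl z v
    have h1 := hEl v z
    have h2 := (hEl (v + (starRingEnd ℂ) l) (z + l)).comp (tend_sub z l)
    refine tendsto_nhds_unique h2 (h1.congr' ?_)
    filter_upwards [ev_mul L hcC z] with w hw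
    exact (dG_add hL hpq n hc v hw hl).symm
  -- the coefficients
  obtain ⟨d, hd⟩ : ∃ d : ℕ → ℂ → ℂ, d = fun j z => ∑ k ∈ Finset.range (N + 1), E k z * (lg N k).coeff j :=
    ⟨_, rfl⟩
  have hdd : ∀ j, Differentiable ℂ (d j) := by
    intro j
    rw [hd]
    have : Differentiable ℂ (fun z => ∑ k ∈ Finset.range (N + 1), E k z * (lg N k).coeff j) :=
      Differentiable.fun_sum fun k _ => (hEd k).mul_const _
    exact this
  have hsum : ∀ z v, ∑ j ∈ Finset.range (N + 1), d j z * v ^ j = E v z := by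
    intro z v
    rw [(hEb z).lag v]
    simp only [hd, Finset.sum_mul]
    rw [Finset.sum_comm]
    refine Finset.sum_congr rfl fun k hk => ?_
    rw [Polynomial.eval_eq_sum_range' (Nat.lt_succ_of_le (lg_deg hk)), Finset.mul_sum]
    refine Finset.sum_congr rfl fun j _ => ?_
    ring
  obtain ⟨C, hC⟩ := liou L N d hdd (fun l hl z v => by
    rw [hsum, hsum]
    exact hEi l hl z v)
  refine ⟨C, fun v z h0 => ?_⟩
  rw [hEv v z h0, ← hsum, hC]

lemma dG_conj (L : PeriodPair) (p q Ω : ℂ) (n : ℕ) (c : R) [Fintype (R ⧸ sp c)] (z : ℂ) :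
    dG L p q Ω n c ((starRingEnd ℂ) z) z = ∑ t : R ⧸ sp c, ek L p q n (z + ta Ω c t) -
      (c : ℂ) ^ (n + 1) * ((starRingEnd ℂ) (c : ℂ) ^ n)⁻¹ * ek L p q n (c * z) := by
  unfold dG ek
  congr 1
  · apply Finset.sum_congr rfl
    intro t _
    rw [map_add]
  · rw [map_mul]

/-- the points of order `c` are symmetric -/
lemma ta_neg (hL : IsLat L R Ω) {c : R} (hc : c ≠ 0) (t : R ⧸ sp c) : ta Ω c (-t) + ta Ω c t ∈ L.lattice := by
  have hcC : (c : ℂ) ≠ 0 := fun h => hc (Subtype.ext h)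
  have h1 : Ideal.Quotient.mk (sp c) ((-t).out + t.out) = 0 := by
    rw [map_add, Ideal.Quotient.mk_out, Ideal.Quotient.mk_out, neg_add_cancel]
  rw [Ideal.Quotient.eq_zero_iff_mem, Ideal.mem_span_singleton] at h1
  obtain ⟨r, hr⟩ := h1
  rw [hL.mem]
  refine ⟨r, ?_⟩
  apply mul_left_cancel₀ hcC
  rw [mul_add, c_ta Ω hc, c_ta Ω hc, ← mul_add]
  have h2 : (((-t).out : R) : ℂ) + ((t.out : R) : ℂ) = ((c * r : R) : ℂ) := by
    rw [← hr]
    push_cast
    rfl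
  rw [h2]
  push_cast
  ring

/-- the distribution relation -/
theorem dist_of_par (hpar : ∀ z : ℂ, ∀ n : ℕ, z ∉ L.lattice → ek L p q n (-z) = -ek L p q n z) (hL : IsLat L R Ω)
    (hpq : ∀ l ∈ L.lattice, eta L l = p * l + q * (starRingEnd ℂ) l) (n : ℕ)
    {c : R} (hc : c ≠ 0) [Fintype (R ⧸ sp c)] (z : ℂ) (hz : (c : ℂ) * z ∉ L.lattice) :
    ∑ t : R ⧸ sp c, ek L p q n (z + ta Ω c t) =
      (c : ℂ) ^ (n + 1) * ((starRingEnd ℂ) (c : ℂ) ^ n)⁻¹ * ek L p q n (c * z) := by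
  obtain ⟨C, hC⟩ := dG_const (n := n) hL hpq hc
  have h1 := hC ((starRingEnd ℂ) z) z hz
  have hz' : (c : ℂ) * (-z) ∉ L.lattice := by
    rw [mul_neg]
    exact fun h => hz (by simpa using neg_mem h)
  have h2 := hC ((starRingEnd ℂ) (-z)) (-z) hz'
  rw [dG_conj] at h1 h2
  have hzt : ∀ t : R ⧸ sp c, z + ta Ω c t ∉ L.lattice := fun t h => hz (ta_mem hL hc h)
  have hzt' : ∀ t : R ⧸ sp c, z - ta Ω c t ∉ L.lattice := by
    intro t h
    apply hzt (-t)
    have h3 := add_mem h (ta_neg hL hc t)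
    have h4 : z - ta Ω c t + (ta Ω c (-t) + ta Ω c t) = z + ta Ω c (-t) := by ring
    rwa [h4] at h3
  have h3 : ∑ t : R ⧸ sp c, ek L p q n (-z + ta Ω c t) = -∑ t : R ⧸ sp c, ek L p q n (z + ta Ω c t) := by
    rw [← Finset.sum_neg_distrib, ← Equiv.sum_comp (Equiv.neg (R ⧸ sp c))]
    apply Finset.sum_congr rfl
    intro t _
    rw [Equiv.neg_apply]
    have h4 : -z + ta Ω c (-t) = -(z - ta Ω c (-t)) := by ring
    rw [h4, hpar _ n (hzt' (-t))]
    congr 1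
    apply ek_per hpq n (hzt t)
    have h5 : z - ta Ω c (-t) - (z + ta Ω c t) = -(ta Ω c (-t) + ta Ω c t) := by ring
    rw [h5]
    exact neg_mem (ta_neg hL hc t)
  rw [h3, mul_neg, hpar _ n hz] at h2
  have h4 : C = -C := by
    nth_rewrite 1 [← h2]
    rw [← h1]
    ring
  have h5 : C = 0 := by
    have h6 : (2 : ℂ) * C = 0 := by linear_combination h4
    exact (mul_eq_zero.1 h6).resolve_left (by norm_num)
  rw [h5] at h1
  exact sub_eq_zero.1 h1

theorem t_DIST : Pool.Agent.Q274.BKL.S_DIST := by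
  intro hpar L Ω p q hL hpq n c hc _ z hz
  exact dist_of_par (fun z n hz => hpar L p q n z hz) hL hpq n hc z hz

end Pool.Agent.Q257.BKL
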